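import Mathlib

/-!
# MP_41e757_co: skew pair families for Hamming distance have length at most `2 ^ (t + 1)`

Embed the symbols in a domain of characteristic two and attach to a string `a` the squarefree
coefficients of `∏ k, (1 + a_k v_k)`, with generic linear forms `v_k` in `t + 1` variables.
-/

namespace Pool.Agent.Results.MP_41e757_co.CharTwo

open Finset MvPolynomial

/-- There is a skew `t`-family of length `m` over the alphabet `X`. -/
def SkewFamily (X : Type) [DecidableEq X] (t m : ℕ) : Prop :=
  ∃ n, t + 1 ≤ n ∧ ∃ a b : Fin m → Fin n → X,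
    (∀ i, t + 1 ≤ hammingDist (a i) (b i)) ∧ ∀ i j, i < j → hammingDist (a i) (b j) ≤ t

noncomputable def ones (d : ℕ) : Fin d →₀ ℕ := ∑ l, Finsupp.single l 1

theorem ones_apply (d : ℕ) (l : Fin d) : ones d l = 1 := by
  simp [ones, Finsupp.finset_sum_apply, Finsupp.single_apply]

section
variable {R : Type} [CommRing R] {n d : ℕ}

noncomputable def lin (c : Fin n → Fin d → R) (k : Fin n) : MvPolynomial (Fin d) R :=
  ∑ l, C (c k l) * X l

noncomputable def P (c : Fin n → Fin d → R) (w : Fin n → R) : MvPolynomial (Fin d) R :=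
  ∏ k, (1 + C (w k) * lin c k)

theorem coeff_mul_P [CharP R 2] [Nontrivial R] (c : Fin n → Fin d → R) (u w : Fin n → R) :
    coeff (ones d) (P c u * P c w) = coeff (ones d) (P c (u + w)) := by
  haveI : Fact (Nat.Prime 2) := ⟨Nat.prime_two⟩
  set J : Ideal (MvPolynomial (Fin d) R) := Ideal.span
    ((fun s => monomial s (1 : R)) '' Set.range fun l : Fin d => Finsupp.single l 2) with hJ
  have h1 : ∀ k, lin c k ^ 2 ∈ J := by
    intro k
    rw [lin, sum_pow_char]
    refine J.sum_mem fun l _ => ?_
    rw [mul_pow, X_pow_eq_monomial]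
    exact J.mul_mem_left _ (Ideal.subset_span ⟨_, ⟨l, rfl⟩, rfl⟩)
  have h2 : P c u * P c w - P c (u + w) ∈ J := by
    rw [← Ideal.Quotient.eq, P, P, P, ← prod_mul_distrib, map_prod, map_prod]
    refine prod_congr rfl fun k _ => Ideal.Quotient.eq.2 ?_
    have : (1 + C (u k) * lin c k) * (1 + C (w k) * lin c k) - (1 + C ((u + w) k) * lin c k) =
        C (u k) * C (w k) * lin c k ^ 2 := by
      rw [Pi.add_apply, map_add]; ring
    rw [this]
    exact J.mul_mem_left _ (h1 k)
  rw [← sub_eq_zero, ← coeff_sub]
  by_contra hne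
  obtain ⟨_, ⟨l, rfl⟩, hl⟩ := mem_ideal_span_monomial_image.1 h2 _ (mem_support_iff.2 hne)
  have := hl l
  simp [ones_apply] at this

theorem coeff_P_zero [DecidableEq R] (c : Fin n → Fin d → R) (w : Fin n → R)
    (h : (univ.filter fun k => w k ≠ 0).card < d) : coeff (ones d) (P c w) = 0 := by
  refine coeff_eq_zero_of_totalDegree_lt ?_
  have e : ∑ i ∈ (ones d).support, ones d i = d := by
    rw [sum_subset (subset_univ _) fun l _ hl => by simpa using hl]
    simp [ones_apply]
  rw [e]
  refine lt_of_le_of_lt ((totalDegree_finset_prod _ _).trans ?_) h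
  rw [card_filter]
  refine sum_le_sum fun k _ => ?_
  split_ifs with hk
  · refine (totalDegree_add _ _).trans (max_le (by simp) ((totalDegree_mul _ _).trans ?_))
    rw [totalDegree_C, zero_add]
    refine totalDegree_finsetSum_le fun l _ => (totalDegree_mul _ _).trans ?_
    rw [totalDegree_C, zero_add]
    exact (totalDegree_monomial_le _ _).trans (by simp)
  · rw [not_not.1 hk]; simp

theorem coeff_special (σ : Fin d ↪ Fin n) (w : Fin n → R) :
    coeff (ones d) (P (fun k l => if k = σ l then 1 else 0) w) = ∏ l, w (σ l) := by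
  have h1 : P (fun k l => if k = σ l then (1 : R) else 0) w = ∏ l, (1 + C (w (σ l)) * X l) := by
    rw [P, ← prod_subset (subset_univ (univ.map σ)), prod_map]
    · refine prod_congr rfl fun l _ => ?_
      rw [lin, sum_eq_single l]
      · simp
      · intro l' _ hl
        rw [if_neg fun h => hl (σ.injective h).symm]; simp
      · simp
    · intro k _ hk
      rw [lin, sum_eq_zero]
      · simp
      · intro l _
        rw [if_neg fun h => hk (mem_map.2 ⟨l, mem_univ _, h.symm⟩)]; simp
  have h2 : ∀ T : Finset (Fin d), ∏ l ∈ T, (C (w (σ l)) * X l : MvPolynomial (Fin d) R) =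
      monomial (∑ l ∈ T, Finsupp.single l 1) (∏ l ∈ T, w (σ l)) := by
    intro T
    rw [monomial_sum_index, prod_mul_distrib, map_prod]
    rfl
  rw [h1, prod_one_add, coeff_sum, sum_eq_single univ]
  · rw [h2, coeff_monomial, if_pos (by rfl)]
  · intro T _ hT
    rw [h2, coeff_monomial, if_neg]
    intro h
    obtain ⟨l, hl⟩ : ∃ l, l ∉ T := by
      by_contra hc
      exact hT (eq_univ_iff_forall.2 fun l => by_contra fun h => hc ⟨l, h⟩)
    have := DFunLike.congr_fun h l
    rw [ones_apply, Finsupp.finset_sum_apply, sum_eq_zero] at this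
    · cases this
    · intro l' hl'
      exact Finsupp.single_eq_of_ne fun e => hl (e ▸ hl')
  · simp

theorem map_P {S : Type} [CommRing S] (f : R →+* S) (c : Fin n → Fin d → R) (w : Fin n → R) :
    MvPolynomial.map f (P c w) = P (fun k l => f (c k l)) fun k => f (w k) := by
  simp [P, lin, map_prod, map_sum]

end

theorem card_anti (d : ℕ) : (Finset.HasAntidiagonal.antidiagonal (ones d)).card ≤ 2 ^ d := by
  have : (Finset.HasAntidiagonal.antidiagonal (ones d)).card ≤
      (univ : Finset (Finset (Fin d))).card := by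
    refine card_le_card_of_injOn (fun p => p.1.support) (fun _ _ => mem_univ _) ?_
    rintro ⟨α, β⟩ h ⟨α', β'⟩ h' e
    have h1 := mem_antidiagonal.1 h
    have h2 := mem_antidiagonal.1 h'
    have k : ∀ l, α l = α' l ∧ β l = β' l := by
      intro l
      have a1 := DFunLike.congr_fun h1 l
      have a2 := DFunLike.congr_fun h2 l
      have a3 : l ∈ α.support ↔ l ∈ α'.support := by rw [show α.support = α'.support from e]
      simp only [Finsupp.add_apply, ones_apply, Finsupp.mem_support_iff] at a1 a2 a3
      omega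
    exact Prod.ext (Finsupp.ext fun l => (k l).1) (Finsupp.ext fun l => (k l).2)
  simpa using this

theorem swap_sum {A I J : Type} [CommRing A] [Fintype I] [Fintype J] (g : I → A) (φ : I → J → A)
    (ψ : J → A) : ∑ i, g i * ∑ p, φ i p * ψ p = ∑ p, (∑ i, g i * φ i p) * ψ p := by
  simp only [Finset.mul_sum, Finset.sum_mul, mul_assoc]
  exact sum_comm

theorem upper (X : Type) [DecidableEq X] (t m : ℕ) (h : SkewFamily X t m) : m ≤ 2 ^ (t + 1) := by
  classical
  obtain ⟨n, -, a, b, h1, h2⟩ := h
  let K := MvPolynomial X (ZMod 2)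
  let R := MvPolynomial (Fin n × Fin (t + 1)) K
  let c : Fin n → Fin (t + 1) → R := fun k l => MvPolynomial.X (k, l)
  let e : X → R := fun x => C (MvPolynomial.X x)
  have hK : ∀ x y : X, (MvPolynomial.X x + MvPolynomial.X y : K) = 0 ↔ x = y := by
    intro x y
    rw [CharTwo.add_eq_zero]
    exact X_injective.eq_iff
  have he : ∀ x y, e x + e y = 0 ↔ x = y := by
    intro x y
    rw [← hK, ← map_add, C_eq_zero]
  let M : Fin m → Fin m → R := fun i j =>
    coeff (ones (t + 1)) (P c (fun k => e (a i k)) * P c fun k => e (b j k))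
  have hM : ∀ i j, M i j = coeff (ones (t + 1)) (P c fun k => e (a i k) + e (b j k)) :=
    fun i j => coeff_mul_P c _ _
  have hz : ∀ i j, i < j → M i j = 0 := by
    intro i j hij
    rw [hM]
    refine coeff_P_zero c _ (lt_of_le_of_lt (le_of_eq ?_) (Nat.lt_succ_of_le (h2 i j hij)))
    simp only [hammingDist, Ne, he]
  have hd : ∀ i, M i i ≠ 0 := by
    intro i h0
    obtain ⟨σ, hσ⟩ : ∃ σ : Fin (t + 1) ↪ Fin n, ∀ l, a i (σ l) ≠ b i (σ l) := by
      obtain ⟨T, hT, hc⟩ := exists_subset_card_eq (h1 i)
      exact ⟨(T.orderEmbOfFin hc).toEmbedding, fun l =>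
        (mem_filter.1 (hT (T.orderEmbOfFin_mem hc l))).2⟩
    have := congrArg (eval fun p : Fin n × Fin (t + 1) => if p.1 = σ p.2 then (1 : K) else 0) h0
    rw [hM, ← coeff_map, map_P, map_zero] at this
    simp only [c, e, eval_X, map_add, eval_C] at this
    rw [coeff_special, prod_eq_zero_iff] at this
    obtain ⟨l, -, hl⟩ := this
    exact hσ l ((hK _ _).1 hl)
  let φ : Fin m → (Finset.HasAntidiagonal.antidiagonal (ones (t + 1)) → R) := fun i p =>
    coeff p.1.1 (P c fun k => e (a i k))
  have hli : LinearIndependent R φ := by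
    rw [Fintype.linearIndependent_iff]
    intro g hg
    by_contra hne
    obtain ⟨j, hj, hmax⟩ := exists_max_image (univ.filter fun i => g i ≠ 0) id (by
      simp only [not_forall] at hne
      obtain ⟨i, hi⟩ := hne
      exact ⟨i, by simpa using hi⟩)
    have hs : ∑ i, g i * M i j = 0 := by
      have : ∀ i, M i j = ∑ p : Finset.HasAntidiagonal.antidiagonal (ones (t + 1)),
          φ i p * coeff p.1.2 (P c fun k => e (b j k)) := by
        intro i
        simp only [M, φ]
        rw [coeff_mul, ← sum_coe_sort]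
      rw [sum_congr rfl fun i _ => congrArg (g i * ·) (this i)]
      refine (swap_sum g φ _).trans (sum_eq_zero fun p _ => ?_)
      have h3 : ∑ i, g i * φ i p = 0 := by
        have := congrFun hg p
        rw [Finset.sum_apply] at this
        exact this
      rw [h3, zero_mul]
    rw [sum_eq_single j] at hs
    · exact mul_ne_zero (mem_filter.1 hj).2 (hd j) hs
    · intro i _ hij
      rcases lt_or_gt_of_ne hij with h | h
      · rw [hz i j h, mul_zero]
      · have : g i = 0 := by
          by_contra hi
          exact absurd (hmax i (by simpa using hi)) (not_le.2 h)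
        rw [this, zero_mul]
    · simp
  have := hli.fintype_card_le_finrank
  rw [Module.finrank_fintype_fun_eq_card, Fintype.card_fin, Fintype.card_coe] at this
  exact this.trans (card_anti _)

theorem lower (X : Type) [DecidableEq X] [Nontrivial X] (t : ℕ) : SkewFamily X t (2 ^ (t + 1)) := by
  obtain ⟨x, y, hxy⟩ := exists_pair_ne X
  let s : Fin (2 ^ (t + 1)) ≃ (Fin (t + 1) → Bool) :=
    (Fintype.equivFinOfCardEq (by simp)).symm
  refine ⟨t + 1, le_rfl, fun i k => if s i k then x else y, fun i k => if s i k then y else x,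
    fun i => ?_, fun i j hij => ?_⟩
  · rw [hammingDist, filter_true_of_mem]
    · simp
    · intro k _
      by_cases h : s i k = true <;> simp [h, hxy, hxy.symm]
  · obtain ⟨k, hk⟩ := Function.ne_iff.1 (s.injective.ne hij.ne)
    refine Nat.le_of_lt_succ (lt_of_lt_of_le (card_lt_card (filter_ssubset.2 ⟨k, mem_univ _, ?_⟩))
      (by simp))
    by_cases h : s i k = true <;> by_cases h' : s j k = true <;> simp_all

/-- For every `t` and every alphabet with at least two letters, `g(t; X) = 2 ^ (t + 1)`. -/
theorem result (X : Type) [DecidableEq X] [Nontrivial X] (t : ℕ) :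
    IsGreatest {m | SkewFamily X t m} (2 ^ (t + 1)) :=
  ⟨lower X t, fun m hm => upper X t m hm⟩

end Pool.Agent.Results.MP_41e757_co.CharTwo
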